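import Pool.Agent.H.MP_4eb715_lc.D

namespace Pool.Agent.H.MP_4eb715_lc

open Classical

def prod {α β : Type} (l : List α) (m : List β) : List (α × β) :=
  l.flatMap fun a => m.map fun b => (a, b)

@[simp] theorem mem_prod {α β : Type} {l : List α} {m : List β} {x : α × β} :
    x ∈ prod l m ↔ x.1 ∈ l ∧ x.2 ∈ m := by
  obtain ⟨a, b⟩ := x
  simp [prod]

def tup {α : Type} (k : ℕ) (X : List α) : List (List α) :=
  (fun L => X.flatMap fun x => L.map fun l => x :: l)^[k] [[]]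

theorem mem_tup {α : Type} {X : List α} : ∀ {k : ℕ} {l : List α},
    l ∈ tup k X ↔ l.length = k ∧ ∀ x ∈ l, x ∈ X
  | 0, l => by
    simp only [tup, Function.iterate_zero, id, List.mem_singleton, List.length_eq_zero_iff]
    exact ⟨fun h => ⟨h, by simp [h]⟩, fun h => h.1⟩
  | k + 1, l => by
    have h : tup (k + 1) X = X.flatMap fun x => (tup k X).map fun l => x :: l := by
      simp only [tup, Function.iterate_succ_apply']
    rw [h]
    cases l with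
    | nil => simp
    | cons a l =>
      simp only [List.mem_flatMap, List.mem_map, mem_tup, List.cons.injEq, List.length_cons,
        Nat.add_right_cancel_iff, List.mem_cons, forall_eq_or_imp]
      constructor
      · rintro ⟨x, hx, l', h1, rfl, rfl⟩
        exact ⟨h1.1, hx, h1.2⟩
      · rintro ⟨h1, h2, h3⟩
        exact ⟨a, h2, l, ⟨h1, h3⟩, rfl, rfl⟩

theorem ofFn_tup {α : Type} {X : List α} {k : ℕ} {f : Fin k → α} (h : ∀ i, f i ∈ X) :
    List.ofFn f ∈ tup k X := mem_tup.2 ⟨by simp, by simpa [List.mem_ofFn] using h⟩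

theorem tup_ofFn {α : Type} {X : List α} {k : ℕ} {l : List α} (h : l ∈ tup k X) :
    ∃ f : Fin k → α, l = List.ofFn f ∧ ∀ i, f i ∈ X := by
  obtain ⟨rfl, h2⟩ := mem_tup.1 h
  exact ⟨l.get, (List.ofFn_get l).symm, fun i => h2 _ (List.get_mem _ _)⟩

theorem getD_ofFn {α : Type} {k : ℕ} (f : Fin k → α) (i : Fin k) (d : α) :
    (List.ofFn f).getD i d = f i := by
  simp [List.getD_eq_getElem?_getD]

noncomputable def flt {α : Type} (l : List α) (p : α → Prop) : List α :=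
  l.filter fun x => decide (p x)

@[simp] theorem mem_flt {α : Type} {l : List α} {p : α → Prop} {x : α} :
    x ∈ flt l p ↔ x ∈ l ∧ p x := by simp [flt]

theorem flt_sub {α : Type} (l : List α) (p : α → Prop) : flt l p ∈ l.sublists' :=
  List.mem_sublists'.2 List.filter_sublist

def nx (b : Bool) (m : ℕ) : ℕ := bif b then 0 else m + 1

theorem nx_mono (b : Bool) {m m' : ℕ} (h : m ≤ m') : nx b m ≤ nx b m' := by
  cases b <;> simp [nx, h]

section
variable {S T : Type}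

inductive Good (Tr : ℕ → T → Bool → List T → Prop) (N : ℕ) : Tree → T → ℕ → Prop
  | mk (σ k : ℕ) (c : Fin k → Tree) (p : T) (m : ℕ) (b : Bool) (ps : Fin k → T) :
      Tr σ p b (List.ofFn ps) → nx b m ≤ N → (∀ i, Good Tr N (c i) (ps i) (nx b m)) →
      Good Tr N (.node σ k c) p m

theorem Good.mono {Tr : ℕ → T → Bool → List T → Prop} {N : ℕ} {t : Tree} {p : T} {m : ℕ}
    (h : Good Tr N t p m) : ∀ m' ≤ m, Good Tr N t p m' := by
  induction h with
  | mk σ k c p m b ps h1 h2 _ ih =>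
    exact fun m' hm => .mk σ k c p m' b ps h1 ((nx_mono b hm).trans h2)
      fun i => ih i _ (nx_mono b hm)

theorem Good.inv {Tr : ℕ → T → Bool → List T → Prop} {N σ k : ℕ} {c : Fin k → Tree} {p : T}
    {m : ℕ} (h : Good Tr N (.node σ k c) p m) : ∃ (b : Bool) (ps : Fin k → T),
      Tr σ p b (List.ofFn ps) ∧ nx b m ≤ N ∧ ∀ i, Good Tr N (c i) (ps i) (nx b m) := by
  cases h with
  | mk _ _ _ _ _ b ps h1 h2 h3 => exact ⟨b, ps, h1, h2, h3⟩

abbrev Pos (S T : Type) : Type := S × List T × List T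

def poss (U : List S) (TL : List T) : List (Pos S T) := prod U (prod TL.sublists' TL.sublists')

def trip (TL : List T) : List (T × Bool × T) := prod TL (prod [true, false] TL)

def Cover (TL : List T) (Tr : ℕ → T → Bool → List T → Prop) (t0 : T) (σ k : ℕ) (P : List T)
    (Es : List (List (T × Bool × T))) : Prop :=
  ∀ p ∈ P, ∀ b ∈ [true, false], ∀ ps ∈ tup k TL, Tr σ p b ps →
    ∃ i < k, (p, b, ps.getD i t0) ∈ Es.getD i []

def Ans (x y : Pos S T × ℕ) (E : List (T × Bool × T)) : Prop :=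
  ∀ p ∈ y.1.2.1, ∃ e ∈ E, e.1 ∈ x.1.2.1 ∧ e.2.2 = p ∧ (e.2.1 = true ∨
    (e.1 ∉ x.1.2.2 ∧ (p ∈ y.1.2.2 ∨ y.2 < x.2)) ∨ (p ∈ y.1.2.2 ∧ y.2 < x.2))

def StepOK (rk : List ℕ) (δ : ℕ → List S → S) (TL : List T) (Tr : ℕ → T → Bool → List T → Prop)
    (s0 : S) (t0 : T) (Rc : List S) (W : List (Pos S T × ℕ)) (x : Pos S T × ℕ) : Prop :=
  ∀ σ < rk.length, ∀ ss ∈ tup (rk.getD σ 0) Rc, δ σ ss = x.1.1 →
    ∀ Es ∈ tup (rk.getD σ 0) (trip TL).sublists', Cover TL Tr t0 σ (rk.getD σ 0) x.1.2.1 Es →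
      ∃ y ∈ W, ∃ i < rk.getD σ 0, y.1.1 = ss.getD i s0 ∧ Ans x y (Es.getD i [])

def Cert (rk : List ℕ) (δ : ℕ → List S → S) (U : List S) (Acc : S → Prop) (TL : List T)
    (Tr : ℕ → T → Bool → List T → Prop) (s0 : S) (t0 : T) : Prop :=
  ∃ Rc ∈ U.sublists', (∀ σ < rk.length, ∀ ss ∈ tup (rk.getD σ 0) Rc, δ σ ss ∈ Rc) ∧
    ∃ W ∈ (prod (poss U TL) (List.range ((poss U TL).length + 1))).sublists',
      (∀ s ∈ Rc, Acc s → ∃ x ∈ W, x.1 = (s, [t0], [t0])) ∧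
        ∀ x ∈ W, StepOK rk δ TL Tr s0 t0 Rc W x

def st (δ : ℕ → List S → S) : Tree → S
  | .node σ _ c => δ σ (List.ofFn fun i => st δ (c i))

variable {rk : List ℕ} {δ : ℕ → List S → S} {U : List S} {Acc : S → Prop} {TL : List T}
  {Tr : ℕ → T → Bool → List T → Prop} {s0 : S} {t0 : T}

theorem sound (h : Cert rk δ U Acc TL Tr s0 t0) :
    ∃ N, ∀ t, Ground rk t → Acc (st δ t) → Good Tr N t t0 0 := by
  obtain ⟨Rc, -, hc, W, hW, hi, hs⟩ := h
  set M := (poss U TL).length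
  have hW' : ∀ x ∈ W, x.1 ∈ poss U TL ∧ x.2 ≤ M := fun x hx => by
    have := mem_prod.1 ((List.mem_sublists'.1 hW).subset hx)
    exact ⟨this.1, by simpa [Nat.lt_succ_iff] using this.2⟩
  have hR : ∀ t, Ground rk t → st δ t ∈ Rc := fun t ht => by
    induction ht with
    | mk σ k c h1 h2 _ ih => subst h2; exact hc σ h1 _ (ofFn_tup ih)
  let cb : Pos S T × ℕ → T → ℕ := fun x p => if p ∈ x.1.2.2 then 2 * M + 1 - x.2 else M - x.2
  have key : ∀ t, Ground rk t → ∀ x ∈ W, x.1.1 = st δ t →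
      ∃ p ∈ x.1.2.1, Good Tr (2 * M + 2) t p (cb x p) := fun t ht => by
    induction ht with
    | mk σ k c h1 h2 h3 ih =>
      subst h2
      intro x hx hxs
      by_contra hn
      push Not at hn
      let Es : Fin (rk.getD σ 0) → List (T × Bool × T) := fun i =>
        flt (trip TL) fun e => ¬Good Tr (2 * M + 2) (c i) e.2.2 (nx e.2.1 (cb x e.1))
      have hP : ∀ p ∈ x.1.2.1, p ∈ TL := fun p hp => by
        have := (hW' x hx).1
        simp only [poss, mem_prod, List.mem_sublists'] at this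
        exact this.2.1.subset hp
      obtain ⟨y, hy, i, hi, h4, h5⟩ := hs x hx σ h1 _ (ofFn_tup fun i => hR _ (h3 i)) hxs.symm
        (List.ofFn Es) (ofFn_tup fun i => flt_sub _ _) (by
          intro p hp b hb ps hps htr
          obtain ⟨f, rfl, hf⟩ := tup_ofFn hps
          by_contra h6
          refine hn p hp (.mk σ _ c p _ b f htr ?_ fun i => ?_)
          · cases b <;> simp only [nx, cb, cond] <;> [split_ifs <;> omega; omega]
          · by_contra h7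
            refine h6 ⟨i, i.2, ?_⟩
            rw [getD_ofFn, getD_ofFn]
            exact mem_flt.2 ⟨by simp only [trip, mem_prod]; exact ⟨hP p hp, hb, hf i⟩, h7⟩)
      rw [show i = ((⟨i, hi⟩ : Fin _) : ℕ) from rfl, getD_ofFn] at h4 h5
      obtain ⟨p, hp, hg⟩ := ih ⟨i, hi⟩ y hy h4
      obtain ⟨e, he, -, rfl, h7⟩ := h5 p hp
      refine (mem_flt.1 he).2 (hg.mono _ ?_)
      have := (hW' x hx).2
      have := (hW' y hy).2
      rcases e with ⟨e1, b, e2⟩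
      cases b
      · simp only [nx, cb, cond, Bool.false_eq_true, false_or] at h7 ⊢
        split_ifs <;> first | omega | (simp_all <;> omega)
      · simp [nx]
  refine ⟨2 * M + 2, fun t ht ha => ?_⟩
  obtain ⟨x, hx, h1⟩ := hi _ (hR t ht) ha
  obtain ⟨p, hp, hg⟩ := key t ht x hx (by rw [h1])
  rw [h1] at hp
  obtain rfl := List.mem_singleton.1 hp
  exact hg.mono _ (Nat.zero_le _)

theorem complete (hU : ∀ t, st δ t ∈ U) (h0 : t0 ∈ TL)
    (hT : ∀ σ p b ps, Tr σ p b ps → ∀ q ∈ ps, q ∈ TL) {N : ℕ}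
    (h : ∀ t, Ground rk t → Acc (st δ t) → Good Tr N t t0 0) : Cert rk δ U Acc TL Tr s0 t0 := by
  let Rc := flt U fun s => ∃ t, Ground rk t ∧ st δ t = s
  let Lev : Pos S T → ℕ → Prop := fun x j => ∃ v : T → ℕ, (∀ p ∈ x.2.1, v p ≤ N) ∧
    (∀ t, Ground rk t → st δ t = x.1 → ∃ p ∈ x.2.1, Good Tr N t p (v p)) ∧
      ∀ p ∈ x.2.1, p ∈ x.2.2 → N + 1 ≤ v p + j
  let ρ : Pos S T → ℕ := fun x => sInf {j | Lev x j}
  let r : Pos S T → ℕ := fun x => ((poss U TL).toFinset.filter fun y => ρ y < ρ x).card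
  have hr : ∀ x, r x ≤ (poss U TL).length := fun x =>
    (Finset.card_filter_le _ _).trans (List.toFinset_card_le _)
  have hr2 : ∀ x, ∀ y ∈ poss U TL, ρ y < ρ x → r y < r x := fun x y hy hxy => by
    refine Finset.card_lt_card ⟨fun z hz => ?_, fun hz => ?_⟩
    · simp only [Finset.mem_filter] at hz ⊢
      exact ⟨hz.1, hz.2.trans hxy⟩
    · have := hz (Finset.mem_filter.2 ⟨List.mem_toFinset.2 hy, hxy⟩)
      simp at this
  have hm : ∀ x ∈ poss U TL, ∀ j, Lev x j → (x, r x) ∈ flt (prod (poss U TL)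
      (List.range ((poss U TL).length + 1))) fun z => (∃ j, Lev z.1 j) ∧ z.2 = r z.1 :=
    fun x hx j hj => mem_flt.2 ⟨mem_prod.2 ⟨hx, by simpa [Nat.lt_succ_iff] using hr x⟩, ⟨j, hj⟩, rfl⟩
  have tr : ∀ {k} (ss : List S), ss ∈ tup k Rc → ∃ c : Fin k → Tree,
      (∀ i, Ground rk (c i)) ∧ ss = List.ofFn fun i => st δ (c i) := fun ss hss => by
    obtain ⟨f, rfl, hf⟩ := tup_ofFn hss
    choose c h1 h2 using fun i => (mem_flt.1 (hf i)).2
    exact ⟨c, h1, by simp [h2]⟩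
  refine ⟨Rc, flt_sub _ _, fun σ hσ ss hss => ?_, _, flt_sub _ fun z => (∃ j, Lev z.1 j) ∧
    z.2 = r z.1, fun s hs ha => ?_, ?_⟩
  · obtain ⟨c, h1, rfl⟩ := tr ss hss
    exact mem_flt.2 ⟨hU (.node σ _ c), _, .mk σ _ c hσ rfl h1, rfl⟩
  · refine ⟨_, hm (s, [t0], [t0]) ?_ (N + 1) ⟨fun _ => 0, by simp, fun t ht hs => ?_, by simp⟩, rfl⟩
    · simp [poss, h0, (mem_flt.1 hs).1]
    · exact ⟨t0, by simp, h t ht (by rwa [hs])⟩
  rintro ⟨x, n⟩ hx σ hσ ss hss hδ Es hEs hcov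
  obtain ⟨-, hl, hn⟩ := mem_flt.1 hx
  obtain rfl : n = r x := hn
  obtain ⟨v, hv1, hv2, hv3⟩ : Lev x (ρ x) := Nat.sInf_mem hl
  obtain ⟨c, hc, rfl⟩ := tr ss hss
  let A : ℕ → T → Set ℕ := fun i q => {m | m ≤ N ∧ ∃ e ∈ Es.getD i [], e.1 ∈ x.2.1 ∧ e.2.2 = q ∧
    nx e.2.1 (v e.1) = m}
  let P' : ℕ → List T := fun i => flt TL fun q => (A i q).Nonempty
  obtain ⟨i, hi⟩ : ∃ i : Fin (rk.getD σ 0), ∀ t, Ground rk t → st δ t = st δ (c i) →
      ∃ q ∈ P' i, Good Tr N t q (sInf (A i q)) := by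
    by_contra hn
    push Not at hn
    choose c' h1 h2 h3 using hn
    obtain ⟨p, hp, hg⟩ := hv2 (.node σ _ c') (.mk σ _ c' hσ rfl h1) (by
      rw [← hδ]; simp only [st, h2])
    obtain ⟨b, ps, h4, h5, h6⟩ := hg.inv
    have h7 : ∀ i, ps i ∈ TL := fun i => hT _ _ _ _ h4 _ (List.mem_ofFn.2 ⟨i, rfl⟩)
    obtain ⟨i, hi, h8⟩ := hcov p hp b (by cases b <;> simp) _ (ofFn_tup h7) h4
    rw [show (List.ofFn ps).getD i t0 = ps ⟨i, hi⟩ from getD_ofFn ps ⟨i, hi⟩ t0] at h8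
    have h9 : nx b (v p) ∈ A i (ps ⟨i, hi⟩) := ⟨h5, _, h8, hp, rfl, rfl⟩
    exact h3 ⟨i, hi⟩ _ (mem_flt.2 ⟨h7 _, _, h9⟩) ((h6 _).mono _ (Nat.sInf_le h9))
  have h1 : ∀ q ∈ P' i, sInf (A i q) ∈ A i q := fun q hq => Nat.sInf_mem (mem_flt.1 hq).2
  have h2 : ∀ O ∈ TL.sublists', (st δ (c i), P' i, O) ∈ poss U TL := fun O hO => by
    simp only [poss, mem_prod]
    exact ⟨hU _, flt_sub _ _, hO⟩
  rcases Nat.eq_zero_or_pos (ρ x) with hj | hj
  · refine ⟨_, hm (st δ (c i), P' i, P' i) (h2 _ (flt_sub _ _)) (N + 1)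
      ⟨fun q => sInf (A i q), fun q hq => (h1 q hq).1, hi, by simp⟩, i, i.2,
      (getD_ofFn (fun i => st δ (c i)) i s0).symm, fun q hq => ?_⟩
    obtain ⟨-, e, he, h3, h4, -⟩ := h1 q hq
    refine ⟨e, he, h3, h4, .inr (.inl ⟨fun h5 => ?_, .inl hq⟩)⟩
    have := hv3 _ h3 h5
    have := hv1 _ h3
    omega
  · let y : Pos S T := (st δ (c i), P' i, flt TL fun q => N + 1 ≤ sInf (A i q) + (ρ x - 1))
    have hy : Lev y (ρ x - 1) :=
      ⟨fun q => sInf (A i q), fun q hq => (h1 q hq).1, hi, fun q _ hq => (mem_flt.1 hq).2⟩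
    have hlt : r y < r x := hr2 x y (h2 _ (flt_sub _ _))
      (lt_of_le_of_lt (Nat.sInf_le hy) (by omega))
    refine ⟨_, hm y (h2 _ (flt_sub _ _)) _ hy, i, i.2,
      (getD_ofFn (fun i => st δ (c i)) i s0).symm, fun q hq => ?_⟩
    obtain ⟨-, ⟨e1, b, e2⟩, he, h3, h4, h5⟩ := h1 q hq
    refine ⟨_, he, h3, h4, ?_⟩
    cases b
    · by_cases h6 : e1 ∈ x.2.2
      · refine .inr (.inr ⟨mem_flt.2 ⟨(mem_flt.1 hq).1, ?_⟩, hlt⟩)
        have := hv3 _ h3 h6
        simp only [nx, cond] at h5 this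
        omega
      · exact .inr (.inl ⟨h6, .inr hlt⟩)
    · exact .inl rfl

end

end Pool.Agent.H.MP_4eb715_lc
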