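import Pool.Agent.H.MP_4eb715_lc.B
import Pool.Agent.Lib.helper21.PR

namespace Pool.Agent.H.MP_4eb715_lc

open Pool.Agent.Lib.helper21.PR

attribute [local irreducible] Primrec Computable

section
variable {α β γ : Type} [Primcodable α] [Primcodable β] [Primcodable γ]

@[fun_prop] theorem p_prod' {l : α → List β} {m : α → List γ} (hl : Primrec l) (hm : Primrec m) :
    Primrec fun a => prod (l a) (m a) := by
  unfold prod; fun_prop

@[fun_prop] theorem p_tup {k : α → ℕ} {l : α → List β} (hk : Primrec k) (hl : Primrec l) :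
    Primrec fun a => tup (k a) (l a) := by
  unfold tup; fun_prop

@[fun_prop] theorem p_subl {l : α → List β} (hl : Primrec l) :
    Primrec fun a => (l a).sublists' :=
  (p_foldr (g := fun _ => [[]]) (h := fun _ x L => L ++ L.map fun m => x :: m) (by fun_prop)
    (.const _) hl).of_eq fun a => by induction l a <;> simp [*, List.sublists'_cons]

@[fun_prop] theorem p_flt {l : α → List β} {p : α → β → Prop}
    (hp : Primrec fun z : α × β => cd (p z.1 z.2)) (hl : Primrec l) :
    Primrec fun a => flt (l a) (p a) := by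
  unfold flt; fun_prop
end

abbrev Tn : Type := List (ℕ × List ℕ × ℕ)
abbrev Tp : Type := Bool × List (List ℕ)

def qs (Δ : Tn) : List ℕ := Δ.map fun e => e.2.2

noncomputable def dl (Δ : Tn) (σ : ℕ) (ss : List (List ℕ)) : List ℕ :=
  flt (qs Δ) fun q => ∃ e ∈ Δ, e.1 = σ ∧ e.2.2 = q ∧ e.2.1.length = ss.length ∧
    ∀ i < ss.length, e.2.1.getD i 0 ∈ ss.getD i []

theorem st_mem (Δ : Tn) (t : Tree) : st (dl Δ) t ∈ (qs Δ).sublists' := by
  cases t
  exact flt_sub _ _

theorem mem_st (Δ : Tn) (t : Tree) : ∀ q, q ∈ st (dl Δ) t ↔ Run Δ t q := by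
  induction t with
  | node σ k c ih =>
    intro q
    simp only [st, dl, mem_flt, List.length_ofFn]
    constructor
    · rintro ⟨-, ⟨_, l, _⟩, he, rfl, rfl, rfl, h⟩
      refine .mk _ _ c l.get _ (by rwa [List.ofFn_get]) fun i => (ih i _).1 ?_
      have := h i i.2
      rw [getD_ofFn] at this
      simpa [List.getD_eq_getElem?_getD] using this
    · intro h
      cases h with
      | mk _ _ _ f _ h1 h2 =>
        refine ⟨List.mem_map.2 ⟨_, h1, rfl⟩, _, h1, rfl, rfl, by simp, fun i hi => ?_⟩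
        rw [show i = ((⟨i, hi⟩ : Fin _) : ℕ) from rfl, getD_ofFn, getD_ofFn]
        exact (ih _ _).2 (h2 _)

variable {α : Type} [Primcodable α]

@[fun_prop] theorem p_qs {D : α → Tn} (hD : Primrec D) : Primrec fun a => qs (D a) := by
  unfold qs; fun_prop

@[fun_prop] theorem p_dl {D : α → Tn} {σ : α → ℕ} {s : α → List (List ℕ)} (hD : Primrec D)
    (hσ : Primrec σ) (hs : Primrec s) : Primrec fun a => dl (D a) (σ a) (s a) := by
  have : Primrec fun z : Tn × ℕ × List (List ℕ) => dl z.1 z.2.1 z.2.2 := by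
    unfold dl; fun_prop
  exact this.comp (hD.pair (hσ.pair hs))

@[fun_prop] theorem p_img {D : α → Tn} {σ : α → ℕ} {U X : α → List (List ℕ)} {ps : α → List Tp}
    (hD : Primrec D) (hU : Primrec U) (hσ : Primrec σ) (hp : Primrec ps) (hX : Primrec X) :
    Primrec fun a => cd (Img (dl (D a)) (U a) [] (σ a) (ps a) (X a)) := by
  have : Primrec fun z : (Tn × List (List ℕ)) × ℕ × List Tp × List (List ℕ) =>
      cd (Img (dl z.1.1) z.1.2 [] z.2.1 z.2.2.1 z.2.2.2) := by
    unfold Img; fun_prop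
  exact this.comp ((hD.pair hU).pair (hσ.pair (hp.pair hX)))

@[fun_prop] theorem p_tops {U : α → List (List ℕ)} (hU : Primrec U) :
    Primrec fun a => tops (U a) := by
  unfold tops; fun_prop

abbrev Cx : Type := Tn × List (List ℕ) × List (List (List ℕ))

def TR' (c : Cx) : ℕ → Tp → Bool → List Tp → Prop := TR (dl c.1) c.2.1 [] c.2.2

@[fun_prop] theorem p_tr {c : α → Cx} {σ : α → ℕ} {p : α → Tp} {b : α → Bool} {ps : α → List Tp}
    (hc : Primrec c) (hσ : Primrec σ) (hp : Primrec p) (hb : Primrec b) (hq : Primrec ps) :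
    Primrec fun a => cd (TR' (c a) (σ a) (p a) (b a) (ps a)) := by
  have : Primrec fun z : Cx × (ℕ × Tp) × Bool × List Tp =>
      cd (TR' z.1 z.2.1.1 z.2.1.2 z.2.2.1 z.2.2.2) := by
    unfold TR' TR; fun_prop
  exact this.comp (hc.pair ((hσ.pair hp).pair (hb.pair hq)))

@[fun_prop] theorem p_cover {c : α → Cx} {σ k : α → ℕ} {p : α → Tp} {L P : α → List Tp}
    {E : α → List (List (Tp × Bool × Tp))} (hL : Primrec L) (hc : Primrec c) (hp : Primrec p)
    (hσ : Primrec σ) (hk : Primrec k) (hP : Primrec P) (hE : Primrec E) :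
    Primrec fun a => cd (Cover (L a) (TR' (c a)) (p a) (σ a) (k a) (P a) (E a)) := by
  have : Primrec fun z : (List Tp × Cx) × (Tp × ℕ × ℕ) × List Tp × List (List (Tp × Bool × Tp)) =>
      cd (Cover z.1.1 (TR' z.1.2) z.2.1.1 z.2.1.2.1 z.2.1.2.2 z.2.2.1 z.2.2.2) := by
    unfold Cover; fun_prop
  exact this.comp ((hL.pair hc).pair ((hp.pair (hσ.pair hk)).pair (hP.pair hE)))

@[fun_prop] theorem p_ans {x y : α → Pos (List ℕ) Tp × ℕ} {E : α → List (Tp × Bool × Tp)}
    (hx : Primrec x) (hy : Primrec y) (hE : Primrec E) :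
    Primrec fun a => cd (Ans (x a) (y a) (E a)) := by
  have : Primrec fun z : (Pos (List ℕ) Tp × ℕ) × (Pos (List ℕ) Tp × ℕ) × List (Tp × Bool × Tp) =>
      cd (Ans z.1 z.2.1 z.2.2) := by
    unfold Ans; fun_prop
  exact this.comp (hx.pair (hy.pair hE))

@[fun_prop] theorem p_step {r : α → List ℕ} {c : α → Cx} {p : α → Tp} {L : α → List Tp}
    {R : α → List (List ℕ)} {W : α → List (Pos (List ℕ) Tp × ℕ)} {x : α → Pos (List ℕ) Tp × ℕ}
    (hr : Primrec r) (hc : Primrec c) (hL : Primrec L) (hp : Primrec p) (hR : Primrec R)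
    (hW : Primrec W) (hx : Primrec x) : Primrec fun a =>
      cd (StepOK (r a) (dl (c a).1) (L a) (TR' (c a)) [] (p a) (R a) (W a) (x a)) := by
  have : Primrec fun z : ((List ℕ × Cx) × List Tp × Tp) × List (List ℕ) ×
      List (Pos (List ℕ) Tp × ℕ) × (Pos (List ℕ) Tp × ℕ) => cd (StepOK z.1.1.1 (dl z.1.1.2.1)
        z.1.2.1 (TR' z.1.1.2) [] z.1.2.2 z.2.1 z.2.2.1 z.2.2.2) := by
    unfold StepOK trip; fun_prop
  exact this.comp (((hr.pair hc).pair (hL.pair hp)).pair (hR.pair (hW.pair hx)))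

theorem p_cert : Primrec fun z : (List ℕ × Cx) × List ℕ × List Tp × Tp =>
    cd (Cert z.1.1 (dl z.1.2.1) z.1.2.2.1 (fun s => ∃ q ∈ z.2.1, q ∈ s) z.2.2.1 (TR' z.1.2) []
      z.2.2.2) := by
  unfold Cert poss
  refine p_exists (p_dand (by fun_prop) (p_exists (p_dand (by fun_prop) (p_forall ?_ ?_)) ?_)) ?_
  · exact p_step (c := fun a : ((((List ℕ × Cx) × List ℕ × List Tp × Tp) × List (List ℕ)) ×
      List (Pos (List ℕ) Tp × ℕ)) × (Pos (List ℕ) Tp × ℕ) => a.1.1.1.1.2) (by fun_prop)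
      (by fun_prop) (by fun_prop) (by fun_prop) (by fun_prop) (by fun_prop) (by fun_prop)
  all_goals fun_prop

theorem dec_tsl : ComputablePred fun z : List ℕ × Tn × List ℕ =>
    IsTSL z.1 (autLang z.1 z.2.1 z.2.2) := by
  have h1 : Primrec fun z : List ℕ × Tn × List ℕ => cd (∃ Z ∈ tup z.1.length
      (qs z.2.1).sublists'.sublists', Cert z.1 (dl z.2.1) (qs z.2.1).sublists'
        (fun s => ∃ q ∈ z.2.2, q ∈ s) (tops (qs z.2.1).sublists')
        (TR' (z.2.1, (qs z.2.1).sublists', Z)) []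
        (true, flt (qs z.2.1).sublists' fun s => ∃ q ∈ z.2.2, q ∈ s)) := by
    refine p_exists ?_ (by fun_prop)
    exact p_cert.comp (g := fun a : (List ℕ × Tn × List ℕ) × List (List (List ℕ)) =>
      ((a.1.1, a.1.2.1, (qs a.1.2.1).sublists', a.2), a.1.2.2, tops (qs a.1.2.1).sublists',
        (true, flt (qs a.1.2.1).sublists' fun s => ∃ q ∈ a.1.2.2, q ∈ s))) (by fun_prop)
  refine ((pred h1).computablePred).of_eq fun z => ?_
  have : autLang z.1 z.2.1 z.2.2 =
      {t | Ground z.1 t ∧ (fun s => ∃ q ∈ z.2.2, q ∈ s) (st (dl z.2.1) t)} := by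
    simp only [autLang, mem_st]
  rw [this]
  exact (tsl_iff (st_mem _)).symm

end Pool.Agent.H.MP_4eb715_lc
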