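import Mathlib

/-! Ranked trees, tree substitution grammars and finite tree automata. The ranked alphabet is
given by a list `rk`: its symbols are `0, …, rk.length - 1`, and `σ` has rank `rk.getD σ 0`. -/

namespace Pool.Agent.H.MP_4eb715_lc

/-- `node σ k c` has root label `σ` and the `k` children `c 0, …, c (k - 1)`. -/
inductive Tree : Type
  | node (σ k : ℕ) (c : Fin k → Tree) : Tree

/-- The single node labelled `σ`. -/
def leaf (σ : ℕ) : Tree := .node σ 0 Fin.elim0

/-- The root label. -/
def Tree.root : Tree → ℕ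
  | .node σ _ _ => σ

/-- `T_Σ`: every node labelled `σ` has exactly `rk σ` children. -/
inductive Ground (rk : List ℕ) : Tree → Prop
  | mk (σ k : ℕ) (c : Fin k → Tree) : σ < rk.length → k = rk.getD σ 0 → (∀ i, Ground rk (c i)) →
      Ground rk (.node σ k c)

/-- `T_Σ(Σ)`: in addition, a leaf may carry any symbol. -/
inductive Frag (rk : List ℕ) : Tree → Prop
  | mk (σ k : ℕ) (c : Fin k → Tree) : σ < rk.length → (k = 0 ∨ k = rk.getD σ 0) →
      (∀ i, Frag rk (c i)) → Frag rk (.node σ k c)

/-- One derivation step: a leaf labelled `a` is replaced by a fragment with root label `a`. -/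
inductive Step (F : Set Tree) : Tree → Tree → Prop
  | here (f : Tree) : f ∈ F → Step F (leaf f.root) f
  | down (σ k : ℕ) (c : Fin k → Tree) (i : Fin k) (t : Tree) : Step F (c i) t →
      Step F (.node σ k c) (.node σ k (Function.update c i t))

/-- The language of the tree substitution grammar `(Σ, R, F)`. -/
def tsgLang (rk : List ℕ) (R : Set ℕ) (F : Set Tree) : Set Tree :=
  {t | Ground rk t ∧ ∃ σ ∈ R, Relation.ReflTransGen (Step F) (leaf σ) t}

/-- `L` is a tree substitution language over `Σ`: `L = L(G)` for a set `R ⊆ Σ` of root labels and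
a finite set `F` of fragments in `T_Σ(Σ)` that are not single nodes. -/
def IsTSL (rk : List ℕ) (L : Set Tree) : Prop :=
  ∃ (R : Set ℕ) (F : Set Tree), (∀ σ ∈ R, σ < rk.length) ∧ F.Finite ∧
    (∀ f ∈ F, Frag rk f ∧ ∀ σ, f ≠ leaf σ) ∧ L = tsgLang rk R F

/-- Runs of the nondeterministic bottom-up tree automaton with the transitions `Δ`, where
`(σ, [q₁, …, q_k], q)` stands for `σ(q₁, …, q_k) → q`. -/
inductive Run (Δ : List (ℕ × List ℕ × ℕ)) : Tree → ℕ → Prop
  | mk (σ k : ℕ) (c : Fin k → Tree) (qs : Fin k → ℕ) (q : ℕ) : (σ, List.ofFn qs, q) ∈ Δ →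
      (∀ i, Run Δ (c i) (qs i)) → Run Δ (.node σ k c) q

/-- The regular tree language over `Σ` accepted with the final states `E`. -/
def autLang (rk : List ℕ) (Δ : List (ℕ × List ℕ × ℕ)) (E : List ℕ) : Set Tree :=
  {t | Ground rk t ∧ ∃ q ∈ E, Run Δ t q}

end Pool.Agent.H.MP_4eb715_lc
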